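import Mathlib

set_option autoImplicit false
set_option maxHeartbeats 400000

namespace Pool.Agent.H.MP_4426b5_al

open FreeGroup List

variable {α : Type}

def bar (x : α × Bool) : α × Bool := (x.1, !x.2)

@[simp] theorem bar_bar (x : α × Bool) : bar (bar x) = x := by simp [bar]
@[simp] theorem bar_fst (x : α × Bool) : (bar x).1 = x.1 := rfl
theorem bar_ne (x : α × Bool) : bar x ≠ x := by
  obtain ⟨a, b⟩ := x; cases b <;> simp [bar]
theorem bar_inj {x y : α × Bool} (h : bar x = bar y) : x = y := by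
  rw [← bar_bar x, h, bar_bar]
theorem fst_eq {x y : α × Bool} (h : x.1 = y.1) : x = y ∨ x = bar y := by
  obtain ⟨a, b⟩ := x; obtain ⟨c, d⟩ := y
  simp only at h; subst h
  cases b <;> cases d <;> simp [bar]

theorem red_rel (x y : α × Bool) : (x.1 = y.1 → x.2 = y.2) ↔ y ≠ bar x := by
  obtain ⟨a, b⟩ := x; obtain ⟨c, d⟩ := y
  by_cases h : a = c
  · subst h; cases b <;> cases d <;> simp [bar]
  · simp [bar, h, Ne.symm h]

theorem red_iff (l : List (α × Bool)) : IsReduced l ↔ l.IsChain (fun x y => y ≠ bar x) := by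
  simp only [FreeGroup.IsReduced, red_rel]

theorem red_sub {l l' : List (α × Bool)} (h : IsReduced l) (h' : l' <:+: l) : IsReduced l' := by
  obtain ⟨a, b, rfl⟩ := h'
  exact (List.IsChain.left_of_append h).right_of_append

theorem mk_bar (x : α × Bool) : mk [bar x] = (mk [x])⁻¹ := by
  rw [inv_mk]; simp [invRev, bar]

theorem mk_cons (x : α × Bool) (w : List (α × Bool)) : mk (x :: w) = mk [x] * mk w := by
  rw [mul_mk]; rfl

theorem mk_nil : mk ([] : List (α × Bool)) = 1 := rfl

theorem invRev_cons' (x : α × Bool) (w : List (α × Bool)) :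
    invRev (x :: w) = invRev w ++ [bar x] := by simp [invRev, bar]

theorem head_invRev (w : List (α × Bool)) : (invRev w).head? = w.getLast?.map bar := by
  simp only [invRev, head?_reverse, getLast?_map]; rfl

theorem last_invRev (w : List (α × Bool)) : (invRev w).getLast? = w.head?.map bar := by
  simp only [invRev, getLast?_reverse, head?_map]; rfl

theorem mem_invRev {x : α × Bool} {w : List (α × Bool)} (h : x ∈ invRev w) : bar x ∈ w := by
  simp only [invRev, mem_reverse, mem_map] at h
  obtain ⟨y, h1, rfl⟩ := h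
  simpa [bar] using h1

def pw {β : Type} (u : List β) (N : ℕ) : List β := (List.replicate N u).flatten

theorem pw_zero {β : Type} (u : List β) : pw u 0 = [] := rfl
theorem pw_succ {β : Type} (u : List β) (N : ℕ) : pw u (N + 1) = u ++ pw u N := by
  simp [pw, replicate_succ]
theorem pw_succ' {β : Type} (u : List β) (N : ℕ) : pw u (N + 1) = pw u N ++ u := by
  simp [pw, replicate_succ']
theorem pw_len {β : Type} (u : List β) (N : ℕ) : (pw u N).length = N * u.length := by
  induction N with
  | zero => simp [pw_zero]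
  | succ N ih => rw [pw_succ, length_append, ih]; ring
theorem pw_mem {β : Type} {u : List β} {N : ℕ} {x : β} (h : x ∈ pw u N) : x ∈ u := by
  induction N with
  | zero => simp [pw_zero] at h
  | succ N ih =>
    rw [pw_succ, mem_append] at h
    exact h.elim id ih
theorem pw_rot {β : Type} (u1 u2 : List β) (N : ℕ) :
    pw (u2 ++ u1) (N + 1) = u2 ++ pw (u1 ++ u2) N ++ u1 := by
  induction N with
  | zero => simp [pw_succ, pw_zero]
  | succ N ih => rw [pw_succ, ih, pw_succ]; simp
theorem mk_pw (u : List (α × Bool)) (N : ℕ) : mk (pw u N) = mk u ^ N := by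
  induction N with
  | zero => simp [pw_zero, mk_nil]
  | succ N ih => rw [pw_succ, ← mul_mk, ih, pow_succ']

def Fac {β : Type} (x u : List β) : Prop := ∃ N, x <:+: pw u N

theorem Fac.rot {β : Type} {x u1 u2 : List β} (h : Fac x (u1 ++ u2)) : Fac x (u2 ++ u1) := by
  obtain ⟨N, h⟩ := h
  exact ⟨N + 1, h.trans (by rw [pw_rot]; exact ⟨u2, u1, rfl⟩)⟩

theorem Fac.mono {β : Type} {x y u : List β} (h : Fac y u) (h' : x <:+: y) : Fac x u :=
  let ⟨N, h⟩ := h; ⟨N, h'.trans h⟩

theorem Fac.mem {β : Type} {x u : List β} (h : Fac x u) {a : β} (ha : a ∈ x) : a ∈ u :=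
  let ⟨_, h⟩ := h; pw_mem (h.subset ha)

theorem chain_of_fac {β : Type} {R : β → β → Prop} {u t : List β} (h : ∀ z y, Fac [z, y] u → R z y)
    (ht : Fac t u) : t.IsChain R := by
  rw [isChain_iff_forall_rel_of_append_cons_cons]
  rintro a b l1 l2 rfl
  exact h _ _ (ht.mono ⟨l1, l2, by simp⟩)

theorem fac_snoc {β : Type} (z : β) (l : List β) (N : ℕ) : Fac (pw (z :: l) N ++ [z]) (z :: l) :=
  ⟨N + 1, by rw [pw_succ']; exact ⟨[], l, by simp⟩⟩

theorem fac_of_chain {β : Type} {R : β → β → Prop} {z0 : β} {l : List β}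
    (h : (z0 :: l ++ [z0]).IsChain R) {z y : β} (hf : Fac [z, y] (z0 :: l)) : R z y := by
  have h1 : ∀ N, (pw (z0 :: l) N ++ [z0]).IsChain R := by
    intro N
    induction N with
    | zero => simp [pw_zero]
    | succ N ih =>
      have h2 : ∃ t, pw (z0 :: l) N ++ [z0] = z0 :: t := by
        cases N with
        | zero => exact ⟨[], rfl⟩
        | succ N => exact ⟨_, by rw [pw_succ]; rfl⟩
      obtain ⟨t, ht⟩ := h2
      rw [pw_succ, append_assoc, ht, isChain_split]
      exact ⟨h, ht ▸ ih⟩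
  obtain ⟨N, l1, l2, h2⟩ := hf
  have h3 := (h1 N).left_of_append
  rw [← h2] at h3
  exact isChain_iff_forall_rel_of_append_cons_cons.1 h3 (l₁ := l1) (l₂ := l2) (by simp)

theorem fac_split {β : Type} {u : List β} {z y : β} (hf : Fac [z, y] u) :
    ∃ u1 u2, u = u1 ++ y :: u2 ∧ (y :: u2 ++ u1).getLast? = some z := by
  cases u with
  | nil =>
    have := hf.mem (a := z) (by simp)
    simp at this
  | cons z0 l =>
    refine fac_of_chain (R := fun z y => ∃ u1 u2, z0 :: l = u1 ++ y :: u2 ∧
      (y :: u2 ++ u1).getLast? = some z) ?_ hf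
    rw [isChain_iff_forall_rel_of_append_cons_cons]
    intro a b l1 l2 h
    rcases l2.eq_nil_or_concat with rfl | ⟨l3, c, rfl⟩
    · have h1 : z0 :: l ++ [z0] = (l1 ++ [a]) ++ [b] := by rw [h]; simp
      obtain ⟨h2, h3⟩ := append_inj' h1 rfl
      have h4 : b = z0 := by simpa using h3.symm
      subst h4
      exact ⟨[], l, rfl, by rw [append_nil, h2]; simp⟩
    · have h1 : z0 :: l ++ [z0] = (l1 ++ a :: b :: l3) ++ [c] := by rw [h]; simp
      obtain ⟨h2, -⟩ := append_inj' h1 rfl
      refine ⟨l1 ++ [a], l3, by rw [h2]; simp, ?_⟩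
      rw [← append_assoc, getLast?_append]; simp

theorem fac_pred {β : Type} {u : List β} {y : β} (h : y ∈ u) : ∃ z, Fac [z, y] u := by
  obtain ⟨u1, u2, rfl⟩ := append_of_mem h
  obtain ⟨l, z, hz⟩ : ∃ l z, y :: u2 ++ u1 = l ++ [z] := by
    rcases (y :: u2 ++ u1).eq_nil_or_concat with h | ⟨l, z, h⟩
    · simp at h
    · exact ⟨l, z, by simpa using h⟩
  refine ⟨z, Fac.rot (u1 := y :: u2) ⟨2, l, u2 ++ u1, ?_⟩⟩
  rw [pw_succ, pw_succ, pw_zero, append_nil]
  nth_rewrite 1 [hz]
  simp

theorem fac_succ {β : Type} {u : List β} {z : β} (h : z ∈ u) : ∃ y, Fac [z, y] u := by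
  obtain ⟨u1, u2, rfl⟩ := append_of_mem h
  obtain ⟨y, l, hy⟩ : ∃ y l, u2 ++ u1 ++ [z] = y :: l := by
    cases h : u2 ++ u1 ++ [z] with
    | nil => simp at h
    | cons y l => exact ⟨y, l, rfl⟩
  refine ⟨y, Fac.rot (u1 := z :: u2) ((fac_snoc z (u2 ++ u1) 1).mono ⟨[], l, ?_⟩)⟩
  rw [pw_succ, pw_zero, append_nil, cons_append, hy]
  simp

variable [DecidableEq α]

theorem red_invRev {l : List (α × Bool)} (h : IsReduced l) : IsReduced (invRev l) := by
  rw [isReduced_iff_reduce_eq] at h ⊢
  rw [reduce_invRev, h]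

theorem toWord_red {l : List (α × Bool)} (h : IsReduced l) : (mk l).toWord = l := by
  rw [toWord_mk, h.reduce_eq]

theorem norm_red {l : List (α × Bool)} (h : IsReduced l) : norm (mk l) = l.length := by
  rw [FreeGroup.norm, toWord_red h]

def lst (g : FreeGroup α) : Option (α × Bool) := g.toWord.getLast?

theorem L1 (x : α × Bool) (g : FreeGroup α) (h1 : g ≠ 1) (h2 : mk [x] * g ≠ 1) :
    lst (mk [x] * g) = lst g := by
  have hr : IsReduced g.toWord := isReduced_toWord
  have hg : g = mk g.toWord := mk_toWord.symm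
  cases hl : g.toWord with
  | nil => exact absurd (toWord_eq_nil_iff.1 hl) h1
  | cons y l =>
    rw [hl] at hr hg
    by_cases hy : y = bar x
    · have h3 : mk [x] * g = mk l := by
        rw [hg, mk_cons y l, hy, mk_bar, mul_inv_cancel_left]
      have h4 : l ≠ [] := by
        rintro rfl
        exact h2 h3
      rw [lst, lst, h3, toWord_red (red_sub hr ⟨[y], [], by simp⟩), hl, getLast?_cons_of_ne_nil h4]
    · have h3 : IsReduced (x :: y :: l) := by
        rw [red_iff, isChain_cons_cons, ← red_iff]; exact ⟨hy, hr⟩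
      rw [lst, lst, hl, hg, ← mk_cons, toWord_red h3]; simp [getLast?_cons_cons]

theorem L3 (h g : FreeGroup α) : lst (h * g) = lst g ∨ norm (h * g) + norm g ≤ norm h := by
  have key : ∀ l : List (α × Bool), lst (mk l * g) = lst g ∨ norm (mk l * g) + norm g ≤ l.length := by
    intro l
    induction l with
    | nil => left; simp [mk_nil]
    | cons x l ih =>
      have h0 : norm (mk [x]) ≤ 1 := norm_mk_le
      have h5 : norm (mk l) ≤ l.length := norm_mk_le
      rw [mk_cons, mul_assoc, length_cons]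
      rcases ih with ih | ih
      · by_cases h1 : mk l * g = 1
        · right
          have : g = (mk l)⁻¹ := eq_inv_of_mul_eq_one_right h1
          rw [h1, mul_one, this, norm_inv_eq]; omega
        by_cases h2 : mk [x] * (mk l * g) = 1
        · right
          have : g = (mk [x] * mk l)⁻¹ := eq_inv_of_mul_eq_one_right (by rw [mul_assoc, h2])
          have h3 := norm_mul_le (mk [x]) (mk l)
          rw [h2, this, norm_inv_eq, FreeGroup.norm_one]; omega
        · left; rw [L1 x _ h1 h2, ih]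
      · right
        have := norm_mul_le (mk [x]) (mk l * g)
        omega
  have := key h.toWord
  rwa [mk_toWord] at this

theorem L2 (h g : FreeGroup α) (hn : norm h < norm g) : lst (h * g) = lst g := by
  rcases L3 h g with h1 | h1
  · exact h1
  · omega

theorem norm_map [Finite α] (φ : FreeGroup α →* FreeGroup α) :
    ∃ K, ∀ h, norm (φ h) ≤ K * norm h := by
  obtain ⟨K, hK⟩ := Finite.exists_le (fun x : α × Bool => norm (φ (mk [x])))
  refine ⟨K, fun h => ?_⟩
  have key : ∀ l : List (α × Bool), norm (φ (mk l)) ≤ K * l.length := by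
    intro l
    induction l with
    | nil => simp [mk_nil]
    | cons x l ih =>
      rw [mk_cons, _root_.map_mul, length_cons]
      have := norm_mul_le (φ (mk [x])) (φ (mk l))
      have := hK x
      nlinarith
  have := key h.toWord
  rwa [mk_toWord] at this

theorem axis0 (i : α) (g : FreeGroup α) (hg : ∀ k : ℤ, g ≠ of i ^ k) (n : ℤ) :
    lst (of i ^ n * g) = lst g := by
  have h1 : ∀ n : ℤ, of i ^ n * g ≠ 1 := fun n h =>
    hg (-n) (by rw [zpow_neg]; exact eq_inv_of_mul_eq_one_right h)
  induction n using Int.induction_on with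
  | zero => simp
  | succ n ih =>
    have : of i ^ ((n : ℤ) + 1) * g = mk [(i, true)] * (of i ^ (n : ℤ) * g) := by
      rw [add_comm, zpow_add, zpow_one, mul_assoc]; rfl
    rw [this, L1 _ _ (h1 _) (this ▸ h1 _), ih]
  | pred n ih =>
    have : of i ^ (-(n : ℤ) - 1) * g = mk [(i, false)] * (of i ^ (-(n : ℤ)) * g) := by
      rw [sub_eq_add_neg, add_comm, zpow_add, zpow_neg_one, mul_assoc]; rfl
    rw [this, L1 _ _ (h1 _) (this ▸ h1 _), ih]

theorem axis (i : α) (g h : FreeGroup α) (hg : ∀ k : ℤ, g ≠ of i ^ k) (N : ℕ)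
    (hN : norm h + norm g < N) : lst (h * (of i ^ N * g)) = lst (h * ((of i ^ N)⁻¹ * g)) := by
  have h1 := norm_mul_le (of i ^ N * g) g⁻¹
  have h2 := norm_mul_le ((of i ^ N)⁻¹ * g) g⁻¹
  rw [mul_inv_cancel_right, norm_inv_eq] at h1 h2
  rw [norm_inv_eq] at h2
  rw [norm_of_pow] at h1 h2
  rw [L2 h (of i ^ N * g) (by omega), L2 h ((of i ^ N)⁻¹ * g) (by omega)]
  have h3 := axis0 i g hg N
  have h4 := axis0 i g hg (-N)
  rw [zpow_neg] at h4
  rw [zpow_natCast] at h3 h4
  rw [h3, h4]

end Pool.Agent.H.MP_4426b5_al
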