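import Pool.Agent.H.MP_4426b5_al.A

set_option autoImplicit false
set_option maxHeartbeats 400000

namespace Pool.Agent.H.MP_4426b5_al

open FreeGroup List

variable {α : Type}

def Prim (g : FreeGroup α) : Prop := ∃ (φ : MulAut (FreeGroup α)) (i : α), φ (of i) = g
def RT (u : List (α × Bool)) : Prop := ∀ z y, Fac [z, y] u → y ≠ bar z
def Used (u : List (α × Bool)) (d : α × Bool) : Prop := d ∈ u ∨ bar d ∈ u

theorem RT.red {u t : List (α × Bool)} (h : RT u) (ht : Fac t u) : IsReduced t :=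
  (red_iff t).2 (chain_of_fac h ht)

theorem red_cons {x : α × Bool} {w : List (α × Bool)} (hw : IsReduced w)
    (h : w.head? ≠ some (bar x)) : IsReduced (x :: w) := by
  cases w with
  | nil => exact IsReduced.singleton
  | cons y l =>
    rw [red_iff, isChain_cons_cons, ← red_iff]
    exact ⟨fun h1 => h (by simp [h1]), hw⟩

theorem red_glue {x : α × Bool} {l w : List (α × Bool)} (h1 : IsReduced (l ++ [x]))
    (h2 : IsReduced (x :: w)) : IsReduced (l ++ x :: w) := by
  have := IsReduced.append_overlap (L₁ := l) (L₂ := [x]) (L₃ := w) h1 h2 (by simp)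
  simpa using this

variable [DecidableEq α]

theorem exc {u1 u2 w : List (α × Bool)} {y z : α × Bool} (hr : RT (u1 ++ y :: u2))
    (hw : IsReduced w) (hz : (y :: u2 ++ u1).getLast? = some z) (k : ℤ)
    (h : mk u1 * mk w = mk (u1 ++ y :: u2) ^ k) :
    w.head? = some y ∨ w.head? = some (bar z) ∨ (w = [] ∧ u1 = []) := by
  rcases le_or_gt k 0 with hk | hk
  · obtain ⟨n, rfl⟩ : ∃ n : ℕ, k = -n := ⟨k.natAbs, by omega⟩
    have h1 : mk w = mk (invRev (pw (u1 ++ y :: u2) n ++ u1)) := by
      rw [← inv_mk, ← mul_mk, mk_pw, mul_inv_rev, ← zpow_natCast, ← zpow_neg, ← h,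
        inv_mul_cancel_left]
    have h2 : IsReduced (pw (u1 ++ y :: u2) n ++ u1) :=
      hr.red ⟨n + 1, [], y :: u2, by rw [pw_succ']; simp⟩
    have h3 := congrArg toWord h1
    rw [toWord_red hw, toWord_red (red_invRev h2)] at h3
    rw [h3, head_invRev]
    by_cases h4 : u1 = []
    · subst h4
      cases n with
      | zero => right; right; simp [pw_zero]
      | succ n =>
        right; left
        rw [append_nil] at hz
        rw [pw_succ', append_nil, nil_append, getLast?_append, hz]; rfl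
    · right; left
      rw [getLast?_append_of_ne_nil _ h4] at hz ⊢
      rw [hz]; rfl
  · obtain ⟨n, rfl⟩ : ∃ n : ℕ, k = (n + 1 : ℕ) := ⟨k.natAbs - 1, by omega⟩
    have h1 : mk w = mk (y :: u2 ++ pw (u1 ++ y :: u2) n) := by
      rw [zpow_natCast, ← mk_pw, pw_succ, append_assoc, ← mul_mk] at h
      exact mul_left_cancel h
    have h2 : IsReduced (y :: u2 ++ pw (u1 ++ y :: u2) n) :=
      hr.red ⟨n + 1, u1, [], by rw [pw_succ]; simp⟩
    have h3 := congrArg toWord h1
    rw [toWord_red hw, toWord_red h2] at h3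
    left; rw [h3]; rfl

theorem cut1 [Finite α] {u : List (α × Bool)} (hu : u ≠ []) (hr : RT u) (hp : Prim (mk u)) :
    ∃ (w : List (α × Bool)) (τ : α × Bool → Bool), (∀ x ∈ w, Used u x) ∧
      (∀ b, ∃ d, Used u d ∧ w.head? ≠ some (bar d) ∧ τ d = b) ∧
      ∀ u1 y u2 z, u = u1 ++ y :: u2 → (y :: u2 ++ u1).getLast? = some z →
        w.head? ≠ some (bar z) → w.head? ≠ some y → ¬ (w = [] ∧ u1 = []) → τ z = τ (bar y) := by
  classical
  obtain ⟨φ, i, hφ⟩ := hp
  have hφ' : φ.symm (mk u) = of i := by rw [← hφ]; simp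
  let C : FreeGroup α → Bool := fun g => decide (lst (φ.symm g) = some (i, true))
  let Pure : List (α × Bool) → Bool → Prop := fun w b => ∃ L, ∀ s, (∀ x ∈ s, Used u x) →
    IsReduced (s ++ w) → L ≤ s.length → C (mk (s ++ w)) = b
  obtain ⟨K1, hK1⟩ := Finite.exists_le (fun x : α × Bool => norm (φ.symm (mk [x])))
  obtain ⟨K2, hK2⟩ := norm_map φ.toMonoidHom
  have hlong : ∀ w : List (α × Bool), K2 * K1 < w.length → Pure w (C (mk w)) := by
    intro w hw
    refine ⟨0, fun s hs0 hs hs1 => ?_⟩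
    clear hs0 hs1
    induction s with
    | nil => rfl
    | cons x s ih =>
      have h1 : IsReduced (s ++ w) := red_sub hs ⟨[x], [], by simp⟩
      rw [← ih h1, cons_append, mk_cons]
      have h2 := hK2 (φ.symm (mk (s ++ w)))
      simp only [MulEquiv.toMonoidHom_eq_coe, MonoidHom.coe_coe, MulEquiv.apply_symm_apply] at h2
      rw [norm_red h1, length_append] at h2
      have h3 : K1 < norm (φ.symm (mk (s ++ w))) := by
        by_contra h4
        have := Nat.mul_le_mul_left K2 (not_lt.1 h4)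
        omega
      simp only [C, _root_.map_mul]
      rw [L2 _ _ (lt_of_le_of_lt (hK1 x) h3)]
  have hlen : ∀ N, N ≤ (pw u N).length := fun N => by
    rw [pw_len]; exact Nat.le_mul_of_pos_right _ (length_pos_iff.2 hu)
  have hroot : ¬ ∃ b, Pure [] b := by
    rintro ⟨b, L, hL⟩
    have h1 := hL (pw u (L + 1)) (fun x hx => Or.inl (pw_mem hx))
      (by rw [append_nil]; exact hr.red ⟨_, infix_rfl⟩) (by have := hlen (L + 1); omega)
    have h2 := hL (invRev (pw u (L + 1))) (fun x hx => Or.inr (pw_mem (mem_invRev hx)))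
      (by rw [append_nil]; exact red_invRev (hr.red ⟨_, infix_rfl⟩))
      (by have := hlen (L + 1); rw [invRev_length]; omega)
    rw [← h2] at h1
    rw [append_nil, append_nil, ← inv_mk, mk_pw] at h1
    simp only [C, _root_.map_inv, map_pow, hφ', lst, toWord_inv,
      toWord_of_pow, last_invRev] at h1
    simp [bar, getLast?_replicate, head?_replicate] at h1
  have hQ : ∃ n, ∀ w : List (α × Bool), (∀ x ∈ w, Used u x) → IsReduced w → n ≤ w.length →
      ∃ b, Pure w b := ⟨K2 * K1 + 1, fun w _ _ hw => ⟨_, hlong w hw⟩⟩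
  obtain ⟨n, hn⟩ : ∃ n, Nat.find hQ = n + 1 := by
    refine Nat.exists_eq_succ_of_ne_zero fun h0 => hroot ?_
    exact Nat.find_spec hQ [] (by simp) IsReduced.nil (by omega)
  have h1 := Nat.find_min hQ (m := n) (by omega)
  simp only [not_forall] at h1
  obtain ⟨w, hw1, hw2, hw3, hw4⟩ := h1
  have hch : ∀ x, ∃ b, Used u x → w.head? ≠ some (bar x) → Pure (x :: w) b := by
    intro x
    by_cases hx : Used u x ∧ w.head? ≠ some (bar x)
    · obtain ⟨b, hb⟩ := Nat.find_spec hQ (x :: w) (by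
        intro y hy
        rcases mem_cons.1 hy with rfl | hy
        · exact hx.1
        · exact hw1 y hy) (red_cons hw2 hx.2) (by rw [hn]; simp; omega)
      exact ⟨b, fun _ _ => hb⟩
    · exact ⟨true, fun h1 h2 => absurd ⟨h1, h2⟩ hx⟩
  choose τ hτ using hch
  refine ⟨w, τ, hw1, fun b => ?_, ?_⟩
  · by_contra hb
    have h2 : ∀ x, ∃ L, Used u x → w.head? ≠ some (bar x) → ∀ s, (∀ x ∈ s, Used u x) →
        IsReduced (s ++ x :: w) → L ≤ s.length → C (mk (s ++ x :: w)) = τ x := by
      intro x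
      by_cases hx : Used u x ∧ w.head? ≠ some (bar x)
      · obtain ⟨L, hL⟩ := hτ x hx.1 hx.2
        exact ⟨L, fun _ _ => hL⟩
      · exact ⟨0, fun h1 h2 => absurd ⟨h1, h2⟩ hx⟩
    choose L hL using h2
    obtain ⟨M, hM⟩ := Finite.exists_le L
    refine hw4 ⟨!b, M + 1, fun s hs1 hs2 hs3 => ?_⟩
    rcases s.eq_nil_or_concat with rfl | ⟨l, x, rfl⟩
    · simp at hs3
    · rw [concat_eq_append] at hs1 hs2 hs3 ⊢
      rw [append_assoc, singleton_append] at hs2 ⊢
      have hx : Used u x := hs1 x (by simp)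
      have hx2 : w.head? ≠ some (bar x) := by
        have h3 : IsReduced (x :: w) := red_sub hs2 ⟨l, [], by simp⟩
        cases w with
        | nil => simp
        | cons y t =>
          rw [red_iff, isChain_cons_cons] at h3
          simpa using h3.1
      rw [hL x hx hx2 l (fun y hy => hs1 y (by simp [hy])) hs2 (by have := hM x; simp at hs3; omega)]
      by_contra h5
      exact hb ⟨x, hx, hx2, by cases b <;> simpa using h5⟩
  · intro u1 y u2 z h1 hz h2 h3 h4
    subst h1
    have hzu : z ∈ u1 ++ y :: u2 := by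
      have := mem_of_getLast? hz
      simp only [cons_append, mem_cons, mem_append] at this ⊢
      tauto
    obtain ⟨L, hL⟩ := hτ z (Or.inl hzu) h2
    obtain ⟨L', hL'⟩ := hτ (bar y) (Or.inr (by simp)) (by rwa [bar_bar])
    have hg : ∀ k : ℤ, φ.symm (mk u1 * mk w) ≠ of i ^ k := by
      intro k hk
      rw [← hφ', ← map_zpow] at hk
      rcases exc hr hw2 hz k (φ.symm.injective hk) with h | h | h
      · exact h3 h
      · exact h2 h
      · exact h4 h
    set N := L + L' + norm (φ.symm (mk u1)⁻¹) + norm (φ.symm (mk u1 * mk w)) with hN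
    have hax := axis i _ (φ.symm (mk u1)⁻¹) hg (N + 1) (by omega)
    have hr' : RT (y :: u2 ++ u1) := fun a b hab => hr a b hab.rot
    have hmk : mk (pw (y :: u2 ++ u1) (N + 1)) = (mk u1)⁻¹ * mk (u1 ++ y :: u2) ^ (N + 1) * mk u1 := by
      rw [pw_rot, pow_succ', ← mk_pw, ← mul_mk, ← mul_mk, ← mul_mk]; group
    have hred : IsReduced (pw (y :: u2 ++ u1) (N + 1)) := hr'.red ⟨_, infix_rfl⟩
    have hus : ∀ x ∈ pw (y :: u2 ++ u1) (N + 1), x ∈ u1 ++ y :: u2 := fun x hx => by
      have := pw_mem hx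
      simp only [cons_append, mem_cons, mem_append] at this ⊢
      tauto
    have hl : N + 1 ≤ (pw (y :: u2 ++ u1) (N + 1)).length := by
      rw [pw_len]; exact Nat.le_mul_of_pos_right _ (by simp)
    obtain ⟨l1, hl1⟩ : ∃ l1, pw (y :: u2 ++ u1) (N + 1) = l1 ++ [z] := by
      obtain ⟨l, hl⟩ := getLast?_eq_some_iff.1 hz
      exact ⟨pw (y :: u2 ++ u1) N ++ l, by rw [pw_succ', append_assoc, ← hl]⟩
    obtain ⟨l2, hl2⟩ : ∃ l2, invRev (pw (y :: u2 ++ u1) (N + 1)) = l2 ++ [bar y] :=
      ⟨_, by rw [pw_succ, cons_append, cons_append, invRev_cons']⟩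
    have e1 := hL l1 (fun x hx => Or.inl (hus x (by rw [hl1]; simp [hx])))
      (red_glue (hl1 ▸ hred) (red_cons hw2 h2)) (by rw [hl1] at hl; simp at hl; omega)
    have e2 := hL' l2 (fun x hx => Or.inr (hus _ (mem_invRev (by rw [hl2]; simp [hx]))))
      (red_glue (hl2 ▸ red_invRev hred) (red_cons hw2 (by rwa [bar_bar])))
      (by rw [← invRev_length, hl2] at hl; simp at hl; omega)
    rw [← e1, ← e2, ← singleton_append, ← append_assoc, ← hl1, ← singleton_append (l := w),
      ← append_assoc, ← hl2, ← mul_mk, ← mul_mk, ← inv_mk, hmk]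
    simp only [C]
    have f1 : φ.symm ((mk u1)⁻¹ * mk (u1 ++ y :: u2) ^ (N + 1) * mk u1 * mk w) =
        φ.symm (mk u1)⁻¹ * (of i ^ (N + 1) * φ.symm (mk u1 * mk w)) := by
      rw [← hφ', ← map_pow, ← _root_.map_mul, ← _root_.map_mul]; congr 1; group
    have f2 : φ.symm (((mk u1)⁻¹ * mk (u1 ++ y :: u2) ^ (N + 1) * mk u1)⁻¹ * mk w) =
        φ.symm (mk u1)⁻¹ * ((of i ^ (N + 1))⁻¹ * φ.symm (mk u1 * mk w)) := by
      rw [← hφ', ← map_pow, ← _root_.map_inv, ← _root_.map_mul, ← _root_.map_mul]; congr 1; group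
    rw [f1, f2, hax]

theorem const_of_chain {β : Type} {f : β → Bool} {u : List β} (h : ∀ z y, Fac [z, y] u → f z = f y)
    {a b : β} (ha : a ∈ u) (hb : b ∈ u) : f a = f b := by
  have h1 : u.IsChain (fun z y => f z = f y) :=
    chain_of_fac h ⟨1, by simp [pw_succ, pw_zero]⟩
  clear h
  induction u generalizing a b with
  | nil => simp at ha
  | cons x l ih =>
    have h2 : ∀ c ∈ x :: l, f c = f x := by
      intro c hc
      rcases mem_cons.1 hc with rfl | hc
      · rfl
      · cases l with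
        | nil => simp at hc
        | cons y t =>
          rw [isChain_cons_cons] at h1
          rw [h1.1]; exact ih hc (by simp) h1.2
    rw [h2 a ha, h2 b hb]

theorem cut2 [Finite α] {u : List (α × Bool)} (hu : 2 ≤ u.length) (hr : RT u) (hp : Prim (mk u)) :
    ∃ (c : α × Bool) (τ : α × Bool → Bool), Used u c ∧ (∀ b, ∃ d, Used u d ∧ d ≠ c ∧ τ d = b) ∧
      ∀ z y, Fac [z, y] u → bar z ≠ c → y ≠ c → τ (bar z) = τ y := by
  obtain ⟨w, τ, h1, h2, h3⟩ := cut1 (by rintro rfl; simp at hu) hr hp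
  have hU : ∀ d, Used u d → Used u (bar d) := fun d hd => by
    rw [Used, bar_bar]; exact hd.symm
  cases w with
  | cons c w =>
    refine ⟨c, fun x => τ (bar x), h1 c (by simp), fun b => ?_, fun z y hf h4 h5 => ?_⟩
    · obtain ⟨d, h4, h5, h6⟩ := h2 b
      exact ⟨bar d, hU d h4, fun h => h5 (by simp [h]), by simpa using h6⟩
    · obtain ⟨u1, u2, h6, h7⟩ := fac_split hf
      simpa using h3 u1 y u2 z h6 h7 (by simpa using Ne.symm h4) (by simpa using Ne.symm h5)
        (by simp)
  | nil =>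
    obtain ⟨y0, l, rfl⟩ : ∃ y0 l, u = y0 :: l := by
      cases u with
      | nil => simp at hu
      | cons y l => exact ⟨y, l, rfl⟩
    obtain ⟨z0, hz0⟩ : ∃ z0, (y0 :: l).getLast? = some z0 := ⟨_, getLast?_eq_some_getLast (by simp)⟩
    have hz0m : z0 ∈ y0 :: l := mem_of_getLast? hz0
    have h4 : ∀ z y, Fac [z, y] (y0 :: l) → (z = z0 ∧ y = y0) ∨ τ z = τ (bar y) := by
      intro z y hf
      obtain ⟨u1, u2, h6, h7⟩ := fac_split hf
      by_cases h8 : u1 = []
      · subst h8
        simp only [nil_append, cons.injEq] at h6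
        obtain ⟨rfl, rfl⟩ := h6
        rw [append_nil, hz0] at h7
        exact Or.inl ⟨(Option.some.inj h7).symm, rfl⟩
      · exact Or.inr (h3 u1 y u2 z h6 h7 (by simp) (by simp) (by simp [h8]))
    by_cases hA : ∀ b, ∃ d, Used (y0 :: l) d ∧ d ≠ y0 ∧ τ (bar d) = b
    · refine ⟨y0, fun x => τ (bar x), Or.inl (by simp), hA, fun z y hf h5 h6 => ?_⟩
      rcases h4 z y hf with h | h
      · exact absurd h.2 h6
      · simpa using h
    by_cases hB : ∀ b, ∃ d, Used (y0 :: l) d ∧ d ≠ bar z0 ∧ τ (bar d) = b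
    · refine ⟨bar z0, fun x => τ (bar x), hU _ (Or.inl hz0m), hB, fun z y hf h5 h6 => ?_⟩
      rcases h4 z y hf with h | h
      · exact absurd (by rw [h.1]) h5
      · simpa using h
    exfalso
    simp only [not_forall, not_exists, not_and] at hA hB
    obtain ⟨b1, hA⟩ := hA
    obtain ⟨b2, hB⟩ := hB
    have hne : y0 ≠ bar z0 := by
      obtain ⟨l', hl'⟩ := getLast?_eq_some_iff.1 hz0
      refine hr _ _ ((fac_snoc y0 l 1).mono ⟨l', [], ?_⟩)
      rw [pw_succ, pw_zero, append_nil, append_nil, hl']; simp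
    have e1 : τ (bar y0) = b1 := by
      obtain ⟨d, h5, -, h6⟩ := h2 b1
      by_contra h7
      exact hA (bar d) (hU d h5) (fun h => h7 (by rw [← h, bar_bar, h6])) (by simpa using h6)
    have e2 : τ z0 = b2 := by
      obtain ⟨d, h5, -, h6⟩ := h2 b2
      by_contra h7
      exact hB (bar d) (hU d h5) (fun h => h7 (by rw [← bar_inj h, h6])) (by simpa using h6)
    have e3 : b1 ≠ b2 := fun h => hB y0 (Or.inl (by simp)) hne (e1.trans h)
    have e4 : ∀ d, Used (y0 :: l) d → d = y0 ∨ d = bar z0 := by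
      intro d hd
      by_contra h5
      rw [not_or] at h5
      have := hA d hd h5.1
      have := hB d hd h5.2
      revert e3; cases b1 <;> cases b2 <;> simp_all
    have e5 : y0 = z0 := by
      rcases e4 (bar y0) (Or.inr (by simp)) with h | h
      · exact absurd h (bar_ne _)
      · exact bar_inj h
    subst e5
    obtain ⟨y1, l1, rfl⟩ : ∃ y1 l1, l = y1 :: l1 := by
      cases l with
      | nil => simp at hu
      | cons y l => exact ⟨y, l, rfl⟩
    have e6 : y1 = y0 := by
      rcases e4 y1 (Or.inl (by simp)) with h | h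
      · exact h
      · exact absurd h (hr _ _ ⟨1, [], l1, by simp [pw_succ, pw_zero]⟩)
    subst e6
    have := h3 [y1] y1 l1 y1 rfl (by rw [getLast?_append]; simp) (by simp) (by simp) (by simp)
    exact e3 (by rw [← e1, ← e2, this])

def ty (m : (α × Bool) × (α × Bool → Bool)) (y : α × Bool) : Bool := m.2 y && decide (y.1 ≠ m.1.1)

theorem ty_a (m : (α × Bool) × (α × Bool → Bool)) : ty m m.1 = false := by simp [ty]
theorem ty_ba (m : (α × Bool) × (α × Bool → Bool)) : ty m (bar m.1) = false := by simp [ty]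

theorem ty_eq {c : α × Bool} {τ : α × Bool → Bool} (h : τ (bar c) = false) {y : α × Bool}
    (hy : y ≠ c) : ty (bar c, τ) y = τ y := by
  by_cases h1 : y.1 = c.1
  · rcases fst_eq h1 with h2 | h2
    · exact absurd h2 hy
    · rw [h2, h]; simp [ty]
  · simp [ty, h1]

theorem cut3 [Finite α] {u : List (α × Bool)} (hu : 2 ≤ u.length) (hr : RT u) (hp : Prim (mk u)) :
    ∃ m : (α × Bool) × (α × Bool → Bool),
      (∀ z y, Fac [z, y] u → z ≠ m.1 → y ≠ bar m.1 → ty m (bar z) = ty m y) ∧
      ∃ z y, Fac [z, y] u ∧ ty m (bar z) ≠ ty m y := by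
  obtain ⟨c, τ, h1, h2, h3⟩ : ∃ (c : α × Bool) (τ : α × Bool → Bool), Used u c ∧
      (τ (bar c) = false ∧ ∃ d, Used u d ∧ d ≠ c ∧ τ d = true) ∧
      ∀ z y, Fac [z, y] u → bar z ≠ c → y ≠ c → τ (bar z) = τ y := by
    obtain ⟨c, τ, h1, h2, h3⟩ := cut2 hu hr hp
    cases h : τ (bar c)
    · exact ⟨c, τ, h1, ⟨h, h2 true⟩, h3⟩
    · refine ⟨c, fun x => !τ x, h1, ⟨by simp [h], ?_⟩, fun z y h4 h5 h6 => by simp only [h3 z y h4 h5 h6]⟩
      simpa using h2 false
  obtain ⟨h2, d, hd1, hd2, hd3⟩ := h2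
  by_cases hS : ∃ z y, Fac [z, y] u ∧ ty (bar c, τ) (bar z) ≠ ty (bar c, τ) y
  · refine ⟨(bar c, τ), fun z y h4 h5 h6 => ?_, hS⟩
    have h7 : bar z ≠ c := fun h => h5 (by simp [← h])
    have h8 : y ≠ c := by simpa using h6
    rw [ty_eq h2 h7, ty_eq h2 h8, h3 z y h4 h7 h8]
  · simp only [not_exists, not_and, not_not] at hS
    set t := ty (bar c, τ) with ht
    have ht1 : t d = true := by rw [ht, ty_eq h2 hd2, hd3]
    have ht2 : t c = false := by simpa using ty_ba (bar c, τ)
    have ht3 : t (bar c) = false := ty_a (bar c, τ)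
    obtain ⟨e, he1, he2, he3⟩ : ∃ e, Used u e ∧ t e = true ∧ t (bar e) = false := by
      by_contra hn
      have h4 : ∀ b ∈ u, t (bar b) = t b := by
        intro b hb
        by_contra h5
        cases h6 : t b
        · exact hn ⟨bar b, Or.inr (by simpa using hb), by simpa [h6] using h5, by simpa using h6⟩
        · exact hn ⟨b, Or.inl hb, h6, by simpa [h6] using h5⟩
      have h5 : ∀ z y, Fac [z, y] u → t z = t y := fun z y hf => by
        rw [← hS z y hf, h4 z (hf.mem (by simp))]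
      have h6 : ∀ x, Used u x → ∃ b ∈ u, t b = t x := fun x hx => by
        rcases hx with hx | hx
        · exact ⟨x, hx, rfl⟩
        · exact ⟨_, hx, by rw [← h4 _ hx, bar_bar]⟩
      obtain ⟨b1, hb1, hb2⟩ := h6 d hd1
      obtain ⟨b2, hb3, hb4⟩ := h6 c h1
      have := const_of_chain h5 hb1 hb3
      rw [hb2, hb4, ht1, ht2] at this
      simp at this
    have ht4 : ty (bar e, t) e = false := by simpa using ty_ba (bar e, t)
    refine ⟨(bar e, t), fun z y h4 h5 h6 => ?_, ?_⟩
    · have h7 : bar z ≠ e := fun h => h5 (by simp [← h])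
      have h8 : y ≠ e := by simpa using h6
      rw [ty_eq he3 h7, ty_eq he3 h8, hS z y h4]
    · rcases he1 with he1 | he1
      · obtain ⟨z, hz⟩ := fac_pred he1
        refine ⟨z, e, hz, ?_⟩
        rw [ht4, ty_eq he3 (Ne.symm (hr _ _ hz)), hS _ _ hz, he2]; simp
      · obtain ⟨y, hy⟩ := fac_succ he1
        refine ⟨bar e, y, hy, ?_⟩
        have h5 := hS _ _ hy
        have h6 := hr _ _ hy
        rw [bar_bar] at h5 h6 ⊢
        rw [ht4, ty_eq he3 h6, ← h5, he2]; simp

end Pool.Agent.H.MP_4426b5_al
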