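import Pool.Agent.H.MP_4426b5_al.B

set_option autoImplicit false
set_option maxHeartbeats 400000

namespace Pool.Agent.H.MP_4426b5_al

open FreeGroup List

variable {α : Type} [DecidableEq α]

abbrev Mv (α : Type) := (α × Bool) × (α × Bool → Bool)

def ins (m : Mv α) (z y : α × Bool) : List (α × Bool) :=
  if ty m (bar z) = ty m y then [] else if ty m y = true then [m.1] else [bar m.1]

def insO (m : Mv α) (z : α × Bool) (o : Option (α × Bool)) : List (α × Bool) :=
  match o with
  | none => []
  | some y => ins m z y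

def lin (m : Mv α) (l : List (α × Bool)) : List (α × Bool) :=
  l.foldr (fun z acc => z :: (insO m z acc.head? ++ acc)) []

theorem lin_nil (m : Mv α) : lin m [] = [] := rfl
theorem lin_one (m : Mv α) (z : α × Bool) : lin m [z] = [z] := rfl
theorem lin_cons (m : Mv α) (z : α × Bool) (l : List (α × Bool)) :
    lin m (z :: l) = z :: (insO m z l.head? ++ lin m l) := by cases l <;> rfl
theorem lin_two (m : Mv α) (z y : α × Bool) (l : List (α × Bool)) :
    lin m (z :: y :: l) = z :: (ins m z y ++ lin m (y :: l)) := rfl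

theorem lin_suffix (m : Mv α) (l1 l2 : List (α × Bool)) : lin m l2 <:+ lin m (l1 ++ l2) := by
  induction l1 with
  | nil => exact suffix_rfl
  | cons z l ih =>
    rw [cons_append, lin_cons]
    exact ih.trans ((suffix_append _ _).trans (suffix_cons _ _))

theorem lin_prefix (m : Mv α) (l1 l2 : List (α × Bool)) : lin m l1 <+: lin m (l1 ++ l2) := by
  induction l1 with
  | nil => exact nil_prefix
  | cons z l ih =>
    cases l with
    | nil => rw [lin_one, singleton_append, lin_cons]; exact ⟨_, rfl⟩
    | cons y l =>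
      rw [cons_append, cons_append, lin_two, lin_two, cons_prefix_cons]
      exact ⟨rfl, (prefix_append_right_inj _).2 ih⟩

theorem lin_infix (m : Mv α) {x s : List (α × Bool)} (h : x <:+: s) : lin m x <:+: lin m s := by
  obtain ⟨l1, l2, rfl⟩ := h
  rw [append_assoc]
  exact (lin_prefix m x l2).isInfix.trans (lin_suffix m l1 _).isInfix

theorem ins_cases (m : Mv α) (z y : α × Bool) : ins m z y = [] ∨ ∃ i, ins m z y = [i] := by
  unfold ins; split_ifs <;> simp

theorem shrink_aux (m : Mv α) (z y : α × Bool) (l x : List (α × Bool))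
    (h : ∃ x', x' <+: y :: l ∧ x'.length ≤ x.length ∧ x <+: lin m x') :
    ∃ x', x' <+: z :: y :: l ∧ x'.length ≤ max (x.length + 1) 2 ∧
      z :: (ins m z y ++ x) <+: lin m x' := by
  obtain ⟨x', h1, h2, h3⟩ := h
  cases x' with
  | nil =>
    have : x = [] := by simpa [lin_nil] using h3
    subst this
    exact ⟨[z, y], ⟨l, rfl⟩, by simp, by rw [lin_two, lin_one]; exact ⟨[y], by simp⟩⟩
  | cons y' x' =>
    obtain ⟨rfl, h4⟩ := cons_prefix_cons.1 h1
    refine ⟨z :: y' :: x', cons_prefix_cons.2 ⟨rfl, h1⟩, by simp at h2 ⊢; omega, ?_⟩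
    rw [lin_two, cons_prefix_cons]
    exact ⟨rfl, (prefix_append_right_inj _).2 h3⟩

theorem shrink_pre (m : Mv α) (s x : List (α × Bool)) (h : x <+: lin m s) :
    ∃ x', x' <+: s ∧ x'.length ≤ x.length ∧ x <+: lin m x' := by
  induction s generalizing x with
  | nil => exact ⟨[], prefix_rfl, by simp, h⟩
  | cons z l ih =>
    cases x with
    | nil => exact ⟨[], nil_prefix, le_rfl, nil_prefix⟩
    | cons z' x1 =>
      cases l with
      | nil => exact ⟨[z], prefix_rfl, by simp, h⟩
      | cons y l =>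
        rw [lin_two, cons_prefix_cons] at h
        obtain ⟨rfl, h⟩ := h
        cases x1 with
        | nil => exact ⟨[z'], ⟨_, rfl⟩, le_rfl, prefix_rfl⟩
        | cons i x2 =>
          rcases ins_cases m z' y with h1 | ⟨j, h1⟩
          · rw [h1, nil_append] at h
            obtain ⟨x', h2, h3, h4⟩ := shrink_aux m z' y l _ (ih _ h)
            rw [h1] at h4
            exact ⟨x', h2, by simp at h3 ⊢; omega, h4⟩
          · rw [h1, singleton_append, cons_prefix_cons] at h
            obtain ⟨rfl, h⟩ := h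
            obtain ⟨x', h2, h3, h4⟩ := shrink_aux m z' y l _ (ih _ h)
            rw [h1] at h4
            exact ⟨x', h2, by simp at h3 ⊢; omega, h4⟩

theorem shrink (m : Mv α) (s x : List (α × Bool)) (h : x <:+: lin m s) :
    ∃ x', x' <:+: s ∧ x'.length ≤ max x.length 2 ∧ x <:+: lin m x' := by
  induction s with
  | nil => exact ⟨[], infix_rfl, by simp, h⟩
  | cons z l ih =>
    have hih : x <:+: lin m l → ∃ x', x' <:+: z :: l ∧ x'.length ≤ max x.length 2 ∧
        x <:+: lin m x' := fun h => by
      obtain ⟨x', h1, h2, h3⟩ := ih h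
      exact ⟨x', h1.trans (suffix_cons _ _).isInfix, h2, h3⟩
    have h' := h
    rw [lin_cons, infix_cons_iff] at h'
    rcases h' with h' | h'
    · rw [← lin_cons] at h'
      obtain ⟨x', h1, h2, h3⟩ := shrink_pre m _ _ h'
      exact ⟨x', h1.isInfix, by omega, h3.isInfix⟩
    · cases l with
      | nil => exact hih h'
      | cons y l =>
        change x <:+: ins m z y ++ _ at h'
        rcases ins_cases m z y with h1 | ⟨j, h1⟩
        · rw [h1] at h'; exact hih h'
        · rw [h1, singleton_append, infix_cons_iff] at h'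
          rcases h' with h' | h'
          · cases x with
            | nil => exact ⟨[], nil_infix, by simp, nil_infix⟩
            | cons i x2 =>
              obtain ⟨hij, h''⟩ := cons_prefix_cons.1 h'
              subst hij
              obtain ⟨x', h2, h3, h4⟩ := shrink_aux m z y l _ (shrink_pre m _ _ h'')
              rw [h1] at h4
              exact ⟨x', h2.isInfix, by simpa using h3,
                (suffix_cons z _).isInfix.trans h4.isInfix⟩
          · exact hih h'

def exl (m : Mv α) : List (α × Bool) → α × Bool → List (α × Bool)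
  | [], _ => []
  | z :: l, n => z :: (ins m z (l.head?.getD n) ++ exl m l n)

theorem lin_snoc (m : Mv α) (l : List (α × Bool)) (n : α × Bool) :
    lin m (l ++ [n]) = exl m l n ++ [n] := by
  induction l with
  | nil => rfl
  | cons z l ih =>
    rw [cons_append, lin_cons, ih, exl]
    cases l <;> simp [insO]

theorem exl_append (m : Mv α) (l1 l2 : List (α × Bool)) (n : α × Bool) :
    exl m (l1 ++ l2) n = exl m l1 (l2.head?.getD n) ++ exl m l2 n := by
  induction l1 with
  | nil => rfl
  | cons z l ih =>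
    rw [cons_append, exl, exl, ih]
    cases l <;> simp

theorem exl_pw (m : Mv α) (z : α × Bool) (l : List (α × Bool)) (N : ℕ) :
    exl m (pw (z :: l) N) z = pw (exl m (z :: l) z) N := by
  induction N with
  | zero => rfl
  | succ N ih =>
    rw [pw_succ, pw_succ, exl_append, ih]
    cases N with
    | zero => rfl
    | succ N => rw [pw_succ]; rfl

theorem fac_exl (m : Mv α) {z : α × Bool} {l x : List (α × Bool)} (h : Fac x (z :: l)) :
    Fac (lin m x) (exl m (z :: l) z) := by
  obtain ⟨N, h⟩ := h
  have h1 := lin_infix m (h.trans (prefix_append _ [z]).isInfix)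
  rw [lin_snoc, exl_pw] at h1
  exact (fac_snoc z _ N).mono h1

theorem fac_exl' (m : Mv α) {z : α × Bool} {l x : List (α × Bool)} (h : Fac x (exl m (z :: l) z)) :
    ∃ x', Fac x' (z :: l) ∧ x'.length ≤ max x.length 2 ∧ x <:+: lin m x' := by
  obtain ⟨N, h⟩ := h
  have h1 := h.trans (prefix_append _ [z]).isInfix
  rw [← exl_pw, ← lin_snoc] at h1
  obtain ⟨x', h2, h3, h4⟩ := shrink m _ _ h1
  exact ⟨x', (fac_snoc z l N).mono h2, h3, h4⟩

def ee (m : Mv α) (y : α × Bool) : FreeGroup α := if ty m y = true then mk [m.1] else 1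

def sg (m : Mv α) : FreeGroup α →* FreeGroup α :=
  FreeGroup.lift fun i => ee m (i, true) * of i * (ee m (i, false))⁻¹

def sg' (m : Mv α) : FreeGroup α →* FreeGroup α :=
  FreeGroup.lift fun i => (ee m (i, true))⁻¹ * of i * ee m (i, false)

theorem sg_letter (m : Mv α) (y : α × Bool) :
    sg m (mk [y]) = ee m y * mk [y] * (ee m (bar y))⁻¹ := by
  obtain ⟨i, b⟩ := y
  cases b
  · have : mk [(i, false)] = (of i)⁻¹ := rfl
    rw [this, _root_.map_inv, sg, lift_apply_of]; simp [bar, mul_assoc]
  · exact lift_apply_of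

theorem sg'_letter (m : Mv α) (y : α × Bool) :
    sg' m (mk [y]) = (ee m y)⁻¹ * mk [y] * ee m (bar y) := by
  obtain ⟨i, b⟩ := y
  cases b
  · have : mk [(i, false)] = (of i)⁻¹ := rfl
    rw [this, _root_.map_inv, sg', lift_apply_of]; simp [bar, mul_assoc]
  · exact lift_apply_of

theorem sg_ee (m : Mv α) (y : α × Bool) : sg m (ee m y) = ee m y ∧ sg' m (ee m y) = ee m y := by
  unfold ee
  split_ifs
  · rw [sg_letter, sg'_letter]; simp [ee, ty_a, ty_ba]
  · simp

def sgE (m : Mv α) : MulAut (FreeGroup α) :=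
  MonoidHom.toMulEquiv (sg m) (sg' m)
    (by
      ext i
      have h1 := sg_letter m (i, true)
      have h2 := sg'_letter m (i, true)
      change sg' m (sg m (mk [(i, true)])) = mk [(i, true)]
      rw [h1, _root_.map_mul, _root_.map_mul, _root_.map_inv, h2, (sg_ee m _).2, (sg_ee m _).2]
      group)
    (by
      ext i
      have h1 := sg_letter m (i, true)
      have h2 := sg'_letter m (i, true)
      change sg m (sg' m (mk [(i, true)])) = mk [(i, true)]
      rw [h2, _root_.map_mul, _root_.map_mul, _root_.map_inv, h1, (sg_ee m _).1, (sg_ee m _).1]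
      group)

theorem mk_exl (m : Mv α) (l : List (α × Bool)) (n : α × Bool) :
    mk (exl m l n) = (ee m (l.head?.getD n))⁻¹ * sg m (mk l) * ee m n := by
  induction l with
  | nil => simp [exl, mk_nil]
  | cons z l ih =>
    have h1 : mk (ins m z (l.head?.getD n)) = (ee m (bar z))⁻¹ * ee m (l.head?.getD n) := by
      unfold ins ee
      cases ty m (bar z) <;> cases ty m (l.head?.getD n) <;>
        simp [mk_nil, mk_bar, -mul_mk, -inv_mk]
    rw [exl, mk_cons, ← mul_mk, ih, h1, mk_cons z l, _root_.map_mul, sg_letter]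
    simp [mul_assoc, -mul_mk, -inv_mk]

omit [DecidableEq α] in
theorem Prim.aut {g : FreeGroup α} (h : Prim g) (ψ : MulAut (FreeGroup α)) : Prim (ψ g) :=
  let ⟨φ, i, h⟩ := h; ⟨ψ * φ, i, by rw [← h]; rfl⟩

omit [DecidableEq α] in
theorem Prim.conj {g : FreeGroup α} (h : Prim g) (k : FreeGroup α) : Prim (k * g * k⁻¹) :=
  h.aut (MulAut.conj k)

theorem prim_exl (m : Mv α) (z : α × Bool) (l : List (α × Bool)) :
    Prim (mk (exl m (z :: l) z)) ↔ Prim (mk (z :: l)) := by
  rw [mk_exl]
  constructor
  · intro h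
    have h1 := (h.conj (ee m z)).aut (sgE m).symm
    have h2 : ee m z * ((ee m ((z :: l).head?.getD z))⁻¹ * sg m (mk (z :: l)) * ee m z) *
        (ee m z)⁻¹ = sgE m (mk (z :: l)) := by
      have h3 : ∀ x, sgE m x = sg m x := fun _ => rfl
      rw [h3]
      simp [mul_assoc, -mul_mk, -inv_mk]
    rwa [h2, MulEquiv.symm_apply_apply] at h1
  · intro h
    have h1 := (h.aut (sgE m)).conj (ee m z)⁻¹
    rw [inv_inv] at h1
    exact h1

theorem unexp (m : Mv α) (n : ℕ) : ∀ (z : α × Bool) (t : List (α × Bool)) (e : α × Bool),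
    t.length ≤ n → (z :: t).getLast? = some e → e ≠ bar m.1 →
    (z :: t).IsChain (fun z y => y ≠ bar z ∧ (z ≠ m.1 → y ≠ bar m.1 → ty m (bar z) = ty m y)) →
    (z = m.1 → ∀ y ∈ t.head?, ty m y = false) →
    ∃ s, lin m (z :: s) = z :: t ∧ (z :: s).getLast? = some e ∧ s.length ≤ t.length ∧
      (s.length < t.length ∨ (z :: t).IsChain (fun z y => ty m (bar z) = ty m y)) := by
  induction n with
  | zero =>
    intro z t e h1 h2 _ _ _
    have : t = [] := by simpa using h1
    subst this
    exact ⟨[], rfl, h2, le_rfl, Or.inr (by simp)⟩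
  | succ n ih =>
    intro z t e h1 h2 h3 h4 h5
    cases t with
    | nil => exact ⟨[], rfl, h2, le_rfl, Or.inr (by simp)⟩
    | cons y t =>
      rw [isChain_cons_cons] at h4
      obtain ⟨⟨h6, h7⟩, h4⟩ := h4
      rw [getLast?_cons_cons] at h2
      by_cases hc : ty m (bar z) = ty m y ∧ (y = m.1 → ∀ w ∈ t.head?, ty m w = false)
      · obtain ⟨s, k1, k2, k3, k4⟩ := ih y t e (by simpa using h1) h2 h3 h4 hc.2
        refine ⟨y :: s, by rw [lin_two, k1, ins, if_pos hc.1]; rfl, by rwa [getLast?_cons_cons],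
          by simpa using k3, ?_⟩
        rcases k4 with k4 | k4
        · left; simpa using k4
        · right; rw [isChain_cons_cons]; exact ⟨hc.1, k4⟩
      · obtain ⟨w, t', rfl, k1, k2⟩ : ∃ w t', t = w :: t' ∧ ins m z w = [y] ∧ w ≠ m.1 := by
          by_cases h8 : ty m (bar z) = ty m y
          · simp only [h8, true_and, not_forall] at hc
            obtain ⟨rfl, w, h9, h10⟩ := hc
            cases t with
            | nil => simp at h9
            | cons w' t' =>
              obtain rfl : w' = w := by simpa using h9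
              rw [ty_a] at h8
              refine ⟨w', t', rfl, by simp [ins, h8, h10], ?_⟩
              rintro rfl
              exact h10 (ty_a m)
          · have h9 : y = bar m.1 := by
              by_contra h9
              by_cases h10 : z = m.1
              · exact h8 (by rw [h5 h10 y (by simp), h10, ty_ba])
              · exact h8 (h7 h10 h9)
            subst h9
            rw [ty_ba] at h8
            cases t with
            | nil => exact absurd (by simpa using h2.symm) h3
            | cons w t' =>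
              rw [isChain_cons_cons, bar_bar] at h4
              have h10 : ty m w = false := by
                by_cases h11 : w = bar m.1
                · rw [h11, ty_ba]
                · rw [← h4.1.2 (bar_ne _) h11, ty_a]
              exact ⟨w, t', rfl, by simp [ins, h8, h10], h4.1.1⟩
        rw [getLast?_cons_cons] at h2
        obtain ⟨s, k3, k4, k5, -⟩ := ih w t' e (by simp at h1; omega) h2 h3
          (isChain_cons_cons.1 h4).2 (fun h => absurd h k2)
        exact ⟨w :: s, by rw [lin_two, k3, k1]; rfl, by rwa [getLast?_cons_cons],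
          by simp; omega, Or.inl (by simp; omega)⟩

omit [DecidableEq α] in
theorem prim_rot {u1 u2 : List (α × Bool)} (h : Prim (mk (u1 ++ u2))) : Prim (mk (u2 ++ u1)) := by
  have := h.conj (mk u1)⁻¹
  rw [← mul_mk] at this ⊢
  simpa [mul_assoc, -mul_mk, -inv_mk] using this

theorem reduc [Finite α] {u : List (α × Bool)} (hu : 2 ≤ u.length) (hr : RT u) (hp : Prim (mk u)) :
    ∃ (m : Mv α) (z : α × Bool) (l : List (α × Bool)), (z :: l).length < u.length ∧
      Prim (mk (z :: l)) ∧ ∀ x, Fac x u ↔ Fac x (exl m (z :: l) z) := by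
  obtain ⟨m, h1, z1, y1, h2, h3⟩ := cut3 hu hr hp
  obtain ⟨z0, h4, h5, h6⟩ : ∃ z0 ∈ u, z0 ≠ m.1 ∧ z0 ≠ bar m.1 := by
    cases h : ty m y1
    · rw [h] at h3
      refine ⟨z1, h2.mem (by simp), ?_, ?_⟩
      · rintro rfl; exact h3 (ty_ba m)
      · rintro rfl; exact h3 (by rw [bar_bar, ty_a])
    · refine ⟨y1, h2.mem (by simp), ?_, ?_⟩
      · rintro rfl; simp [ty_a] at h
      · rintro rfl; simp [ty_ba] at h
  obtain ⟨u1, u2, rfl⟩ := append_of_mem h4
  have hf : Fac (z0 :: (u2 ++ u1 ++ [z0])) (u1 ++ z0 :: u2) := by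
    have := fac_snoc z0 (u2 ++ u1) 1
    rw [pw_succ, pw_zero, append_nil] at this
    exact Fac.rot (u1 := z0 :: u2) this
  obtain ⟨s, k1, k2, -, k4⟩ := unexp m _ z0 (u2 ++ u1 ++ [z0]) z0 le_rfl
    (by rw [← cons_append, getLast?_append]; simp) h6
    (chain_of_fac (fun z y h => ⟨hr z y h, h1 z y h⟩) hf) (fun h => absurd h h5)
  rcases k4 with k4 | k4
  swap
  · exact absurd (fac_of_chain (l := u2 ++ u1) k4 (Fac.rot (u2 := z0 :: u2) h2)) h3
  rcases s.eq_nil_or_concat with rfl | ⟨l, c, rfl⟩
  · simp [lin_one] at k1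
  rw [concat_eq_append] at k1 k2 k4
  have h7 : c = z0 := by
    rw [← cons_append, getLast?_append] at k2; simpa using k2
  subst h7
  rw [← cons_append, lin_snoc, ← cons_append] at k1
  have h8 := append_cancel_right k1
  refine ⟨m, c, l, by simp at k4 ⊢; omega, ?_, fun x => ?_⟩
  · rw [← prim_exl m, h8]; exact prim_rot (u2 := c :: u2) hp
  · rw [h8]
    exact ⟨fun h => Fac.rot (u2 := c :: u2) h, fun h => Fac.rot (u1 := c :: u2) h⟩

omit [DecidableEq α] in
theorem prim_letter (c : α × Bool) : Prim (mk [c]) := by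
  obtain ⟨i, b⟩ := c
  cases b
  · let f : FreeGroup α →* FreeGroup α := FreeGroup.lift fun i => (of i)⁻¹
    have hf : f.comp f = MonoidHom.id _ := by ext j; simp [f]
    exact ⟨MonoidHom.toMulEquiv f f hf hf, i,
      by show f (of i) = _; simp only [f, lift_apply_of]; rfl⟩
  · exact ⟨1, i, rfl⟩

theorem extend [Finite α] [Nontrivial α] {u : List (α × Bool)} (hu : u ≠ []) (hr : RT u)
    (hp : Prim (mk u)) (N : ℕ) : ∃ g, Prim g ∧ pw u N <:+: g.toWord ∧
      ∀ a ∈ g.toWord.head?, ∀ b ∈ g.toWord.getLast?, a ≠ bar b := by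
  obtain ⟨φ, i, hφ⟩ := hp
  obtain ⟨j, hj⟩ := exists_ne i
  obtain ⟨K, hK⟩ := norm_map φ.symm.toMonoidHom
  set b := φ (of j) with hb
  set M := K * norm b + 1 with hM
  have hred : ∀ n, IsReduced (pw u n) := fun n => hr.red ⟨n, infix_rfl⟩
  have hkey : ∀ (e : Bool) (x : FreeGroup α), norm x = norm b → φ.symm x = mk [(j, e)] →
      ∀ U, φ.symm U = mk [(i, e)] ^ M → lst (U * x * U) = lst U := by
    intro e x h1 h2 U h3
    rcases L3 (U * x) U with h4 | h4
    · exact h4
    · exfalso
      have h5 := norm_mul_le U x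
      have h6 := hK (U * x * U)
      simp only [MulEquiv.toMonoidHom_eq_coe, MonoidHom.coe_coe, _root_.map_mul, h2, h3] at h6
      have h7 : IsReduced (pw [(i, e)] M ++ (j, e) :: pw [(i, e)] M) := by
        rw [red_iff, isChain_iff_forall_rel_of_append_cons_cons]
        intro p q l1 l2 h
        have h8 : ∀ y ∈ pw [(i, e)] M ++ (j, e) :: pw [(i, e)] M, y.2 = e := by
          intro y hy
          simp only [mem_append, mem_cons] at hy
          rcases hy with hy | rfl | hy
          · have := pw_mem hy; simp_all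
          · rfl
          · have := pw_mem hy; simp_all
        have h9 := h8 p (by rw [h]; simp)
        have h10 := h8 q (by rw [h]; simp)
        rintro rfl
        simp [bar, h9] at h10
      rw [← mk_pw, mul_assoc, ← mk_cons, mul_mk, norm_red h7, length_append, pw_len] at h6
      have h8 : norm (U * x * U) ≤ norm b := by omega
      have := Nat.mul_le_mul_left K h8
      simp at h6; omega
  have hM0 : M = K * norm b + 1 := rfl
  have e1 : lst (mk u ^ M * b * mk u ^ M) = u.getLast? := by
    rw [hkey true b rfl (by rw [hb, MulEquiv.symm_apply_apply]; rfl) _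
      (by rw [map_pow, ← hφ, MulEquiv.symm_apply_apply]; rfl), ← mk_pw, lst,
      toWord_red (hred _), hM0, pw_succ', getLast?_append_of_ne_nil _ hu]
  have e2 : (mk u ^ M * b * mk u ^ M).toWord.head? = u.head? := by
    have h1 := hkey false b⁻¹ norm_inv_eq
      (by rw [hb, _root_.map_inv, MulEquiv.symm_apply_apply]; rfl) (mk u ^ M)⁻¹
      (by rw [_root_.map_inv, map_pow, ← hφ, ← inv_pow, MulEquiv.symm_apply_apply]; rfl)
    have h2 : (mk u ^ M)⁻¹ * b⁻¹ * (mk u ^ M)⁻¹ = (mk u ^ M * b * mk u ^ M)⁻¹ := by group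
    rw [h2, lst, lst, toWord_inv, toWord_inv, last_invRev, last_invRev, ← mk_pw,
      toWord_red (hred _), hM0, pw_succ, head?_append_of_ne_nil _ hu] at h1
    rw [← mk_pw, hM0, pw_succ]
    exact Option.map_injective (fun _ _ => bar_inj) h1
  set β := (mk u ^ M * b * mk u ^ M).toWord with hβ
  have hturn : ∀ a ∈ u.head?, ∀ c ∈ u.getLast?, a ≠ bar c := by
    intro a ha c hc
    obtain ⟨l, rfl⟩ := head?_eq_some_iff.1 ha
    obtain ⟨l', hl'⟩ := getLast?_eq_some_iff.1 hc
    refine hr _ _ ((fac_snoc a l 1).mono ⟨l', [], ?_⟩)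
    rw [pw_succ, pw_zero, append_nil, append_nil, hl']; simp
  have hβ0 : β ≠ [] := by
    intro h
    rw [h] at e2
    exact hu (by simpa using e2.symm)
  have h3 : IsReduced (pw u (N + 1) ++ β) := by
    rw [red_iff, isChain_append, ← red_iff, ← red_iff]
    refine ⟨hred _, isReduced_toWord, fun c hc a ha => hturn a (e2 ▸ ha) c ?_⟩
    rwa [pw_succ', getLast?_append_of_ne_nil _ hu] at hc
  refine ⟨mk (pw u (N + 1) ++ β), ?_, ?_, ?_⟩
  · let tv : ℤ → FreeGroup α →* FreeGroup α := fun p =>
      FreeGroup.lift fun k => if k = j then of i ^ p * of j else of k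
    have htv : ∀ p q : ℤ, p + q = 0 → (tv p).comp (tv q) = MonoidHom.id _ := by
      intro p q h
      ext k
      by_cases hk : k = j
      · simp [tv, hk, hj.symm, ← mul_assoc, ← zpow_add, add_comm q p, h]
      · simp [tv, hk]
    have h4 : ∀ p : ℤ, Prim (of i ^ p * of j) := fun p =>
      ⟨MonoidHom.toMulEquiv (tv p) (tv (-p)) (htv _ _ (neg_add_cancel _))
        (htv _ _ (add_neg_cancel _)), j, by show tv p (of j) = _; simp [tv]⟩
    have h5 := ((h4 ((N + 1 + M + M : ℕ) : ℤ)).aut φ).conj (mk u ^ M)⁻¹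
    rw [_root_.map_mul, map_zpow, hφ, zpow_natCast, ← hb] at h5
    rw [← mul_mk, mk_pw, hβ, mk_toWord]
    have h6 : mk u ^ (N + 1) * (mk u ^ M * b * mk u ^ M) =
        (mk u ^ M)⁻¹ * (mk u ^ (N + 1 + M + M) * b) * (mk u ^ M)⁻¹⁻¹ := by group
    rwa [h6]
  · rw [toWord_red h3, pw_succ']
    exact ⟨[], u ++ β, by simp⟩
  · intro a ha c hc
    rw [toWord_red h3] at ha hc
    refine hturn a ?_ c ?_
    · rwa [pw_succ, append_assoc, head?_append_of_ne_nil _ hu] at ha
    · rwa [getLast?_append_of_ne_nil _ hβ0, ← lst, e1] at hc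

end Pool.Agent.H.MP_4426b5_al
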