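import Pool.Agent.H.MP_4426b5_al.C

set_option autoImplicit false
set_option maxHeartbeats 400000

namespace Pool.Agent.H.MP_4426b5_al

open List

section comb
variable {α : Type} [DecidableEq α]

abbrev Tn (α : Type) := (α × Bool) × (α × Bool) → Bool
abbrev St (α : Type) := List (α × Bool) × Tn α

def Good (s : St α) : Prop :=
  ∃ u, u ≠ [] ∧ Prim (FreeGroup.mk u) ∧ (∀ z y, Fac [z, y] u → s.2 (z, y) = true) ∧ Fac s.1 u

open Classical in
noncomputable def pull (m : Mv α) (W : Tn α) : Tn α :=
  fun p => decide (∀ z y, [z, y] <:+: lin m [p.1, p.2] → W (z, y) = true)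

theorem good_pull (m : Mv α) {x x' : List (α × Bool)} {W : Tn α} (h : Good (x', pull m W))
    (hx : x <:+: lin m x') : Good (x, W) := by
  obtain ⟨u, h1, h2, h3, h4⟩ := h
  obtain ⟨z, l, rfl⟩ := exists_cons_of_ne_nil h1
  refine ⟨exl m (z :: l) z, by simp [exl], (prim_exl m z l).2 h2, fun p q h => ?_,
    (fac_exl m h4).mono hx⟩
  obtain ⟨y, k1, k2, k3⟩ := fac_exl' m h
  match y, k1, k2, k3 with
  | [], _, _, k3 => simpa [lin_nil] using k3.length_le
  | [a], _, _, k3 => simpa [lin_one] using k3.length_le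
  | [a, b], k1, _, k3 =>
    have := h3 a b k1
    simp only [pull, decide_eq_true_eq] at this
    exact this p q k3
  | a :: b :: c :: t, _, k2, _ => simp at k2

def Base (s : St α) : Prop := ∃ c, (∀ a ∈ s.1, a = c) ∧ s.2 (c, c) = true

omit [DecidableEq α] in
theorem good_base {s : St α} (h : Base s) : Good s := by
  obtain ⟨c, h1, h2⟩ := h
  refine ⟨[c], by simp, prim_letter c, fun z y h => ?_, s.1.length, ?_⟩
  · have h3 : z = c := by simpa using h.mem (a := z) (by simp)
    have h4 : y = c := by simpa using h.mem (a := y) (by simp)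
    rw [h3, h4, h2]
  · rw [eq_replicate_of_mem h1]
    simp [pw]

theorem sound [Finite α] (n : ℕ) (hn : 2 ≤ n) (S : St α → Prop)
    (hS : ∀ s, S s → ¬ Base s ∧ ∀ m x', x'.length ≤ n → s.1 <:+: lin m x' → S (x', pull m s.2))
    (k : ℕ) : ∀ u : List (α × Bool), u.length ≤ k → u ≠ [] → RT u → Prim (FreeGroup.mk u) →
      ∀ s, S s → s.1.length ≤ n → (∀ z y, Fac [z, y] u → s.2 (z, y) = true) → ¬ Fac s.1 u := by
  induction k with
  | zero => intro u h1 h2; exact absurd (by simpa using h1) h2
  | succ k ih =>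
    intro u h1 h2 hr hp s hs h3 h4 h5
    by_cases h6 : 2 ≤ u.length
    · obtain ⟨m, z, l, k1, k2, k3⟩ := reduc h6 hr hp
      obtain ⟨x', k4, k5, k6⟩ := fac_exl' m ((k3 _).1 h5)
      have k7 : x'.length ≤ n := by omega
      refine ih (z :: l) (by omega) (by simp) (fun p q h => ?_) k2 _ ((hS s hs).2 m x' k7 k6) k7
        (fun p q h => ?_) k4
      · rintro rfl
        have := (k3 _).2 (fac_exl m h)
        rw [lin_two, lin_one, ins, if_pos rfl] at this
        exact hr _ _ this rfl
      · simp only [pull, decide_eq_true_eq]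
        exact fun a b h' => h4 a b (((k3 _).2 (fac_exl m h)).mono h')
    · match u, h2, h6 with
      | [c], _, _ =>
        refine (hS s hs).1 ⟨c, fun a ha => by simpa using h5.mem ha, h4 c c ⟨2, ?_⟩⟩
        simp [pw]
      | a :: b :: t, _, h6 => simp at h6

def W0 : Tn α := fun p => decide (p.2 ≠ bar p.1)

theorem good_iff [Finite α] [Nontrivial α] (v : List (α × Bool)) :
    (∃ (φ : MulAut (FreeGroup α)) (i : α), List.IsInfix v (φ (FreeGroup.of i)).toWord ∧
      ∀ a ∈ (φ (FreeGroup.of i)).toWord.head?, ∀ b ∈ (φ (FreeGroup.of i)).toWord.getLast?,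
        ¬ (a.1 = b.1 ∧ a.2 ≠ b.2)) ↔ Good (v, W0) := by
  constructor
  · rintro ⟨φ, i, h1, h2⟩
    have h3 : (φ (FreeGroup.of i)).toWord ≠ [] := by
      rw [Ne, FreeGroup.toWord_eq_nil_iff, MulEquiv.map_eq_one_iff]
      exact FreeGroup.of_ne_one i
    have h4 := (red_iff _).1 (FreeGroup.isReduced_toWord (x := φ (FreeGroup.of i)))
    refine ⟨_, h3, ⟨φ, i, FreeGroup.mk_toWord.symm⟩, fun z y h => ?_,
      ⟨1, by simpa [pw] using h1⟩⟩
    obtain ⟨c, l, hl⟩ := exists_cons_of_ne_nil h3
    rw [hl] at h h2 h4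
    simp only [W0, decide_eq_true_eq]
    refine fac_of_chain (R := fun z y => y ≠ bar z) ?_ h
    rw [isChain_append]
    refine ⟨h4, by simp, fun b hb a ha => ?_⟩
    have h5 : c = a := by simpa using ha
    rintro rfl
    exact h2 c (by simp) b hb (by simp [h5, bar])
  · rintro ⟨u, h1, h2, h3, N, h4⟩
    obtain ⟨g, ⟨φ, i, rfl⟩, h5, h6⟩ := extend h1 (fun z y h => by simpa [W0] using h3 z y h) h2 N
    refine ⟨φ, i, h4.trans h5, fun a ha b hb h => h6 a ha b hb ?_⟩
    rcases fst_eq h.1 with h7 | h7
    · exact absurd (by rw [h7]) h.2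
    · exact h7

end comb

section gen
variable {β : Type}

def words (A : List β) (n : ℕ) : List (List β) :=
  Nat.rec [[]] (fun _ L => [] :: A.flatMap fun c => L.map (c :: ·)) n

theorem mem_words {A : List β} (hA : ∀ c, c ∈ A) (n : ℕ) (x : List β) :
    x ∈ words A n ↔ x.length ≤ n := by
  induction n generalizing x with
  | zero => simp [words]
  | succ n ih =>
    change x ∈ [] :: A.flatMap (fun c => (words A n).map (c :: ·)) ↔ _
    cases x with
    | nil => simp
    | cons a x => simp [hA, ih]

def subl (l : List β) : List (List β) := l.foldr (fun a acc => acc ++ acc.map (a :: ·)) [[]]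

theorem filter_subl (p : β → Bool) (l : List β) : l.filter p ∈ subl l := by
  induction l with
  | nil => simp [subl]
  | cons a l ih =>
    change _ ∈ subl l ++ (subl l).map (a :: ·)
    rw [filter_cons]
    split_ifs <;> simp [ih]

noncomputable def al (β : Type) [Finite β] : List β := (Finite.exists_univ_list β).choose
theorem mem_al [Finite β] (c : β) : c ∈ al β := (Finite.exists_univ_list β).choose_spec.2 c

noncomputable instance fnPc [Finite β] : Primcodable (β → Bool) :=
  Primcodable.ofEquiv _ (Finite.equivFin _)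

open Primrec
variable {γ : Type} [Primcodable β] [Primcodable γ]

theorem allL {l : γ → List β} {R : γ → β → Prop} (hl : Primrec l)
    (hR : PrimrecPred fun p : γ × β => R p.1 p.2) : PrimrecPred fun a => ∀ b ∈ l a, R a b :=
  (PrimrecRel.forall_mem_list (R := fun b a => R a b) (hR.comp (pair snd fst))).comp hl
    Primrec.id

theorem exL {l : γ → List β} {R : γ → β → Prop} (hl : Primrec l)
    (hR : PrimrecPred fun p : γ × β => R p.1 p.2) : PrimrecPred fun a => ∃ b ∈ l a, R a b :=
  (PrimrecRel.exists_mem_list (R := fun b a => R a b) (hR.comp (pair snd fst))).comp hl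
    Primrec.id

theorem memL {l : γ → List β} {x : γ → β} (hl : Primrec l) (hx : Primrec x) :
    PrimrecPred fun a => x a ∈ l a :=
  (exL (R := fun a b => b = x a) hl (Primrec.eq.comp snd (hx.comp fst))).of_eq (by simp)

theorem impP {p q : γ → Prop} (hp : PrimrecPred p) (hq : PrimrecPred q) :
    PrimrecPred fun a => p a → q a :=
  (hp.not.or hq).of_eq fun _ => imp_iff_not_or.symm

theorem p_words (A : List β) : Primrec (words A) :=
  nat_rec₁ _ (list_cons.comp (const _) (list_flatMap (const A)
    (list_map (snd.comp fst) (list_cons.comp (snd.comp fst) snd).to₂).to₂)).to₂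

theorem p_subl : Primrec (subl : List β → List (List β)) :=
  list_foldr (h := fun _ (p : β × List (List β)) => p.2 ++ p.2.map (p.1 :: ·)) Primrec.id (const _)
    (list_append.comp (snd.comp snd) (list_map (snd.comp snd)
      (list_cons.comp (fst.comp (snd.comp fst)) snd).to₂)).to₂

theorem p_inf [Finite β] {x s : γ → List β} (hx : Primrec x) (hs : Primrec s) :
    PrimrecPred fun a => x a <:+: s a := by
  have hw := (p_words (al β)).comp (list_length.comp hs)
  refine (exL (R := fun a p => ∃ b ∈ words (al β) (s a).length, p ++ x a ++ b = s a) hw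
    (exL (R := fun (p : γ × List β) b => p.2 ++ x p.1 ++ b = s p.1) (hw.comp fst) (Primrec.eq.comp
    (list_append.comp (list_append.comp (snd.comp fst) (hx.comp (fst.comp fst))) snd)
    (hs.comp (fst.comp fst))))).of_eq fun a => ?_
  simp only [mem_words mem_al]
  constructor
  · rintro ⟨p, -, q, -, h⟩; exact ⟨p, q, h⟩
  · rintro ⟨p, q, h⟩
    exact ⟨p, by rw [← h]; simp, q, by rw [← h]; simp; omega, h⟩

end gen

section fin
open Primrec
variable {α : Type} [DecidableEq α] [Finite α] [Primcodable α]

theorem p_lin : Primrec fun p : Mv α × List (α × Bool) => lin p.1 p.2 :=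
  list_foldr (h := fun (p : Mv α × List (α × Bool)) (q : (α × Bool) × List (α × Bool)) =>
    q.1 :: (insO p.1 q.1 q.2.head? ++ q.2)) snd (const _)
    (list_cons.comp (fst.comp snd) (list_append.comp
      ((dom_finite fun t : Mv α × (α × Bool) × Option (α × Bool) => insO t.1 t.2.1 t.2.2).comp
        (pair (fst.comp fst) (pair (fst.comp snd) (list_head?.comp (snd.comp snd)))))
      (snd.comp snd))).to₂

theorem p_base : PrimrecPred (Base : St α → Prop) :=
  (exL (R := fun (s : St α) c => (∀ a ∈ s.1, a = c) ∧ s.2 (c, c) = true) (const (al _))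
    ((allL (fst.comp fst) (Primrec.eq.comp snd (snd.comp fst))).and (Primrec.eq.comp
      ((dom_finite fun t : Tn α × (α × Bool) => t.1 (t.2, t.2)).comp (pair (snd.comp fst) snd))
      (const true)))).of_eq fun s => by simp [Base, mem_al]

def Closed (n : ℕ) (S : List (St α)) : Prop :=
  ∀ s ∈ S, ¬ Base s ∧ ∀ m ∈ al (Mv α), ∀ x' ∈ words (al _) n, s.1 <:+: lin m x' →
    (x', pull m s.2) ∈ S

theorem p_closed : PrimrecPred fun p : ℕ × List (St α) => Closed p.1 p.2 :=
  allL snd ((p_base.comp snd).not.and (allL (const _) (allL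
    ((p_words _).comp (fst.comp (fst.comp fst)))
    (impP (p_inf (fst.comp (snd.comp (fst.comp fst))) (p_lin.comp (pair (snd.comp fst) snd)))
      (memL (snd.comp (fst.comp (fst.comp fst))) (pair snd
        ((dom_finite fun t : Mv α × Tn α => pull t.1 t.2).comp
          (pair (snd.comp fst) (snd.comp (snd.comp (fst.comp fst)))))))))))

noncomputable def states (n : ℕ) : List (St α) :=
  (words (al _) n).flatMap fun x => (al (Tn α)).map fun W => (x, W)

theorem p_states : Primrec (states : ℕ → List (St α)) :=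
  list_flatMap (p_words _) (list_map (const _) (pair (snd.comp fst) snd).to₂).to₂

def No (v : List (α × Bool)) : Prop :=
  ∃ S ∈ subl (states (max v.length 2)), (v, W0) ∈ S ∧ Closed (max v.length 2) S

theorem p_no : PrimrecPred (No : List (α × Bool) → Prop) := by
  have hn : Primrec fun v : List (α × Bool) => max v.length 2 :=
    nat_max.comp list_length (const 2)
  exact exL (p_subl.comp (p_states.comp hn)) ((memL snd (pair fst (const _))).and
    (p_closed.comp (pair (hn.comp fst) snd)))

omit [Primcodable α] in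
theorem no_iff (v : List (α × Bool)) : No v ↔ ¬ Good (v, W0) := by
  classical
  constructor
  · rintro ⟨S, -, h1, h2⟩ ⟨u, k1, k2, k3, k4⟩
    exact sound (max v.length 2) (by simp) (· ∈ S) (fun s hs => ⟨(h2 s hs).1, fun m x' h =>
      (h2 s hs).2 m (mem_al _) x' ((mem_words mem_al _ _).2 h)⟩) _ u le_rfl k1
      (fun z y h => by simpa [W0] using k3 z y h) k2 _ h1 (by simp) k3 k4
  · intro h
    refine ⟨_, filter_subl (fun s => decide (¬ Good s)) _, ?_, fun s hs => ?_⟩
    · simp [states, mem_words mem_al, mem_al, h]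
    · have h1 : ¬ Good s := by simpa using (mem_filter.1 hs).2
      refine ⟨fun h2 => h1 (good_base h2), fun m _ x' h2 h3 => ?_⟩
      simp only [mem_filter, decide_eq_true_eq, states, mem_flatMap, mem_map]
      exact ⟨⟨x', h2, _, mem_al _, rfl⟩, fun h4 => h1 (good_pull m h4 h3)⟩

end fin

theorem main (r : ℕ) (hr : 2 < r) : ComputablePred (fun v : List (Fin r × Bool) =>
    ¬ ∃ (φ : MulAut (FreeGroup (Fin r))) (i : Fin r),
      List.IsInfix v (φ (FreeGroup.of i)).toWord ∧
      ∀ a ∈ (φ (FreeGroup.of i)).toWord.head?, ∀ b ∈ (φ (FreeGroup.of i)).toWord.getLast?,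
        ¬ (a.1 = b.1 ∧ a.2 ≠ b.2)) := by
  haveI : Nontrivial (Fin r) := Fin.nontrivial_iff_two_le.2 hr.le
  exact (p_no.of_eq fun v => by rw [no_iff, good_iff]).computablePred

end Pool.Agent.H.MP_4426b5_al
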